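import Mathlib
import Pool.Agent.W680.WH.Stm2

/-! Project WHH (owner helper680), part WHC-CO1: strong continuity at the identity. -/

set_option autoImplicit false

open scoped ComplexConjugate InnerProductSpace
open ContinuousLinearMap Filter

namespace Pool.Agent.W140.WH

open Pool.Agent.W680.WH

lemma iso_of {V : E →L[ℂ] E} (h : adjoint V * V = 1) (f : E) : ‖V f‖ = ‖f‖ :=
  (ContinuousLinearMap.norm_map_iff_adjoint_comp_self V).2 h f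

lemma R_iso (hR : S_OPR) (k : Circle) (f : E) : ‖R k f‖ = ‖f‖ := by
  obtain ⟨-, -, -, h4, h5, h6, -⟩ := hR
  refine iso_of ?_ f
  rw [h6, h4, inv_mul_cancel, h5]

lemma R_coord (k : Circle) (f : E) (n : ℤ) : (R k f) n = ((k ^ n : Circle) : ℂ) * f n := by
  unfold R
  rw [wsh_apply, sub_zero]

lemma R_cont (f : E) (ε : ℝ) (hε : 0 < ε) :
    ∃ δ : ℝ, 0 < δ ∧ ∀ c : Circle, ‖(c : ℂ) - 1‖ < δ → ‖R c⁻¹ f - f‖ ≤ ε := by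
  have h1 : ∀ c : Circle, ‖R c⁻¹ f - f‖ ^ 2 = ∑' n : ℤ, ‖(((c⁻¹ ^ n : Circle) : ℂ) - 1) * f n‖ ^ 2 := by
    intro c
    rw [E_norm_sq]
    congr 1
    funext n
    have h2 : (R c⁻¹ f - f) n = (((c⁻¹ ^ n : Circle) : ℂ) - 1) * f n := by
      rw [lp.coeFn_sub, Pi.sub_apply, R_coord]
      ring
    rw [h2]
  have h2 : Tendsto (fun c : Circle => ∑' n : ℤ, ‖(((c⁻¹ ^ n : Circle) : ℂ) - 1) * f n‖ ^ 2)
      (nhds 1) (nhds (∑' _ : ℤ, (0 : ℝ))) := by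
    refine tendsto_tsum_of_dominated_convergence (bound := fun n => 4 * ‖f n‖ ^ 2)
      ((E_summable f).mul_left 4) ?_ ?_
    · intro n
      have h3 : Continuous fun c : Circle => ‖(((c⁻¹ ^ n : Circle) : ℂ) - 1) * f n‖ ^ 2 := by
        have h4 : Continuous fun c : Circle => ((c⁻¹ ^ n : Circle) : ℂ) :=
          (continuous_subtype_val : Continuous fun z : Circle => (z : ℂ)).comp
            ((continuous_inv).zpow n)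
        exact ((h4.sub continuous_const).mul continuous_const).norm.pow 2
      have h5 := h3.tendsto (1 : Circle)
      have h6 : ‖((((1 : Circle)⁻¹ ^ n : Circle) : ℂ) - 1) * f n‖ ^ 2 = 0 := by
        simp
      rw [h6] at h5
      exact h5
    · refine Eventually.of_forall fun c n => ?_
      rw [Real.norm_of_nonneg (by positivity), norm_mul, mul_pow]
      refine mul_le_mul_of_nonneg_right ?_ (by positivity)
      have h7 : ‖((c⁻¹ ^ n : Circle) : ℂ) - 1‖ ≤ 2 := by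
        calc ‖((c⁻¹ ^ n : Circle) : ℂ) - 1‖ ≤ ‖((c⁻¹ ^ n : Circle) : ℂ)‖ + ‖(1 : ℂ)‖ :=
              norm_sub_le _ _
          _ = 2 := by rw [Circle.norm_coe, norm_one]; norm_num
      nlinarith [norm_nonneg (((c⁻¹ ^ n : Circle) : ℂ) - 1)]
  rw [tsum_zero] at h2
  have h3 := (Metric.tendsto_nhds.1 h2) (ε ^ 2) (by positivity)
  obtain ⟨δ, hδ, h4⟩ := Metric.eventually_nhds_iff.1 h3
  refine ⟨δ, hδ, fun c hc => ?_⟩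
  have h5 : dist c 1 < δ := by
    have : dist c 1 = ‖(c : ℂ) - 1‖ := by
      rw [← dist_eq_norm]; rfl
    rw [this]; exact hc
  have h6 := h4 h5
  rw [← h1 c, Real.dist_eq, sub_zero, abs_of_nonneg (by positivity)] at h6
  exact le_of_sq_le_sq h6.le hε.le

lemma pos_R (hR : S_OPR) (hC : S_OPC) (k : Circle) : Pos (R k) := by
  unfold Pos
  rw [hR.1 k 0, zpow_zero, Circle.coe_one, one_smul]
  obtain ⟨h1, -, -, -, -, -, -, -, -, h2, -⟩ := hC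
  rw [h2, h1, if_pos rfl, om_zero]
  simp

/-- the rotations -/
lemma gam_rot (hLEX : S_LEX) (hLUN : S_LUN) (hR : S_OPR) (hC : S_OPC)
    (Γ : Mob → (E2 →L[ℂ] E2)ˣ)
    (hform : ∀ φ : Mob, ∃ V d : E →L[ℂ] E, Lift φ V d ∧ Pos V ∧
      (Γ φ : E2 →L[ℂ] E2) = blk V (V * d) V) (k : Circle) (φ : Mob) (h1 : φ.c = k)
    (h2 : φ.a = 0) : (Γ φ : E2 →L[ℂ] E2) = blk (R k⁻¹) 0 (R k⁻¹) := by
  obtain ⟨V, d, hL, hP, hG⟩ := hform φ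
  have hL' := hLEX.1 k φ h1 h2
  obtain ⟨e1, -, e3⟩ := hLUN φ V d (R k⁻¹) 0 hL hL'
  have e4 := e3 hP (pos_R hR hC _)
  rw [hG, e4, e1, mul_zero]

lemma norm_E2_le (x : E2) : ‖x‖ ≤ ‖x.fst‖ + ‖x.snd‖ := by
  rw [WithLp.prod_norm_eq_of_L2]
  rw [Real.sqrt_le_left (by positivity)]
  nlinarith [norm_nonneg x.fst, norm_nonneg x.snd]

theorem co1 (hLS2 : S_LS2) (hLEX : S_LEX) (hLUN : S_LUN) (hR : S_OPR) (hC : S_OPC) : S_CO1 := by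
  intro Γ C hhom _ hform x ε hε
  obtain ⟨ε', hε', hεε⟩ : ∃ ε' : ℝ, 0 < ε' ∧ ε' * (4 + ‖x.snd‖) ≤ ε := by
    refine ⟨ε / (4 + ‖x.snd‖), by positivity, le_of_eq ?_⟩
    have : 4 + ‖x.snd‖ ≠ 0 := by positivity
    field_simp
  obtain ⟨δ1, hδ1, -, h1⟩ := hLS2 x.fst ε' hε'
  obtain ⟨δ2, hδ2, -, h2⟩ := hLS2 x.snd ε' hε'
  obtain ⟨δ3, hδ3, h3⟩ := R_cont x.fst ε' hε'
  obtain ⟨δ4, hδ4, h4⟩ := R_cont x.snd ε' hε'
  refine ⟨min (min δ1 δ2) (min δ3 δ4), by positivity, fun φ hc ha => ?_⟩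
  have ha1 : ‖φ.a‖ < δ1 := ha.trans_le ((min_le_left _ _).trans (min_le_left _ _))
  have ha2 : ‖φ.a‖ < δ2 := ha.trans_le ((min_le_left _ _).trans (min_le_right _ _))
  have hc3 : ‖φ.c - 1‖ < δ3 := hc.trans_le ((min_le_right _ _).trans (min_le_left _ _))
  have hc4 : ‖φ.c - 1‖ < δ4 := hc.trans_le ((min_le_right _ _).trans (min_le_right _ _))
  -- polar form
  obtain ⟨u, hu⟩ : ∃ u : Circle, φ.a = ((‖φ.a‖ : ℝ) : ℂ) * u := by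
    by_cases h0 : φ.a = 0
    · exact ⟨1, by rw [h0]; simp⟩
    · refine ⟨⟨φ.a / ((‖φ.a‖ : ℝ) : ℂ), ?_⟩, ?_⟩
      · refine mem_sphere_zero_iff_norm.2 ?_
        rw [norm_div, Complex.norm_real, norm_norm, div_self (norm_ne_zero_iff.2 h0)]
      · have : ((‖φ.a‖ : ℝ) : ℂ) ≠ 0 := by exact_mod_cast norm_ne_zero_iff.2 h0
        show φ.a = ((‖φ.a‖ : ℝ) : ℂ) * (φ.a / ((‖φ.a‖ : ℝ) : ℂ))
        field_simp
  obtain ⟨cc, hcc⟩ : ∃ cc : Circle, (cc : ℂ) = φ.c :=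
    ⟨⟨φ.c, mem_sphere_zero_iff_norm.2 φ.hc⟩, rfl⟩
  have hr0 : 0 ≤ ‖φ.a‖ := norm_nonneg _
  have hrn : ‖(((‖φ.a‖ : ℝ)) : ℂ)‖ < 1 := by
    rw [Complex.norm_real, norm_norm]; exact φ.ha
  obtain ⟨α, hα1, hα2⟩ : ∃ α : Mob, α.c = ((cc * u : Circle) : ℂ) ∧ α.a = 0 :=
    ⟨⟨((cc * u : Circle) : ℂ), 0, Circle.norm_coe _, by simp⟩, rfl, rfl⟩
  obtain ⟨β, hβ1, hβ2⟩ : ∃ β : Mob, β.c = ((u⁻¹ : Circle) : ℂ) ∧ β.a = 0 :=
    ⟨⟨((u⁻¹ : Circle) : ℂ), 0, Circle.norm_coe _, by simp⟩, rfl, rfl⟩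
  obtain ⟨ρ, hρ1, hρ2⟩ : ∃ ρ : Mob, ρ.c = 1 ∧ ρ.a = ((‖φ.a‖ : ℝ) : ℂ) :=
    ⟨⟨1, ((‖φ.a‖ : ℝ) : ℂ), by simp, hrn⟩, rfl, rfl⟩
  obtain ⟨σ, hσ1, hσ2⟩ : ∃ σ : Mob, σ.c = ((cc * u : Circle) : ℂ) ∧ σ.a = ((‖φ.a‖ : ℝ) : ℂ) :=
    ⟨⟨((cc * u : Circle) : ℂ), ((‖φ.a‖ : ℝ) : ℂ), Circle.norm_coe _, hrn⟩, rfl, rfl⟩
  have hαρ : ∀ z : ℂ, ‖z‖ < 1 → α.act (ρ.act z) = σ.act z := by
    intro z _
    unfold Mob.act
    rw [hα1, hα2, hρ1, hρ2, hσ1, hσ2]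
    simp
  have huc : conj (u : ℂ) * u = 1 := by
    rw [mul_comm, Complex.mul_conj, Circle.normSq_coe]; simp
  have hσβ : ∀ z : ℂ, ‖z‖ < 1 → σ.act (β.act z) = φ.act z := by
    intro z _
    unfold Mob.act
    rw [hσ1, hσ2, hβ1, hβ2, ← hcc]
    have e1 : conj φ.a = ((‖φ.a‖ : ℝ) : ℂ) * conj (u : ℂ) := by
      conv_lhs => rw [hu]
      rw [map_mul, Complex.conj_ofReal]
    rw [e1, Circle.coe_inv_eq_conj, Circle.coe_mul, Complex.conj_ofReal, map_zero]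
    have e2 : conj (u : ℂ) * ((z - 0) / (1 - 0 * z)) = conj (u : ℂ) * z := by simp
    rw [e2]
    have e3 : (u : ℂ) * (conj (u : ℂ) * z - ((‖φ.a‖ : ℝ) : ℂ)) = z - φ.a := by
      conv_rhs => rw [hu]
      linear_combination z * huc
    have e4 : (cc : ℂ) * u * ((conj (u : ℂ) * z - ((‖φ.a‖ : ℝ) : ℂ)) /
        (1 - ((‖φ.a‖ : ℝ) : ℂ) * (conj (u : ℂ) * z))) =
        (cc : ℂ) * ((u : ℂ) * (conj (u : ℂ) * z - ((‖φ.a‖ : ℝ) : ℂ)) /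
        (1 - ((‖φ.a‖ : ℝ) : ℂ) * (conj (u : ℂ) * z))) := by ring
    rw [e4, e3, mul_assoc (((‖φ.a‖ : ℝ) : ℂ)) (conj (u : ℂ)) z]
  have hΓ : (Γ φ : E2 →L[ℂ] E2) = (Γ α : E2 →L[ℂ] E2) * (Γ ρ : E2 →L[ℂ] E2) *
      (Γ β : E2 →L[ℂ] E2) := by
    rw [hhom σ β φ hσβ, hhom α ρ σ hαρ, Units.val_mul, Units.val_mul]
  obtain ⟨V, d, hL, hP, hG⟩ := hform ρ
  have hVi := iso_of hL.1
  obtain ⟨g1, g2⟩ := h1 ‖φ.a‖ ρ V d hr0 ha1 hρ1 hρ2 hL hP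
  obtain ⟨-, g4⟩ := h2 ‖φ.a‖ ρ V d hr0 ha2 hρ1 hρ2 hL hP
  have hcc3 : ‖(cc : ℂ) - 1‖ < δ3 := by rw [hcc]; exact hc3
  have hcc4 : ‖(cc : ℂ) - 1‖ < δ4 := by rw [hcc]; exact hc4
  have r3 := h3 cc hcc3
  have r4 := h4 cc hcc4
  rw [hΓ, gam_rot hLEX hLUN hR hC Γ hform (cc * u) α hα1 hα2,
    gam_rot hLEX hLUN hR hC Γ hform u⁻¹ β hβ1 hβ2, hG, inv_inv]
  have hRR : ∀ f : E, R (cc * u)⁻¹ (R u f) = R cc⁻¹ f := by
    intro f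
    have h5 := hR.2.2.2.1 (cc * u)⁻¹ u
    have h6 : (cc * u)⁻¹ * u = cc⁻¹ := by
      rw [mul_inv_rev, mul_assoc, mul_comm cc⁻¹ u, ← mul_assoc, inv_mul_cancel, one_mul]
    rw [h6] at h5
    rw [← h5]; rfl
  refine (norm_E2_le _).trans ?_
  have hfst : ((blk (R (cc * u)⁻¹) 0 (R (cc * u)⁻¹) * blk V (V * d) V * blk (R u) 0 (R u)) x -
      x).fst = R (cc * u)⁻¹ (V (R u x.fst) - R u x.fst) +
        R (cc * u)⁻¹ (V (d (R u x.snd))) + (R cc⁻¹ x.fst - x.fst) := by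
    rw [map_sub, hRR]
    show R (cc * u)⁻¹ (V (R u x.fst + (0 : E →L[ℂ] E) x.snd) + V (d (R u x.snd))) +
      (0 : E →L[ℂ] E) (V (R u x.snd)) - x.fst = _
    rw [ContinuousLinearMap.zero_apply, ContinuousLinearMap.zero_apply, add_zero, add_zero, map_add]
    abel
  have hsnd : ((blk (R (cc * u)⁻¹) 0 (R (cc * u)⁻¹) * blk V (V * d) V * blk (R u) 0 (R u)) x -
      x).snd = R (cc * u)⁻¹ (V (R u x.snd) - R u x.snd) + (R cc⁻¹ x.snd - x.snd) := by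
    rw [map_sub, hRR]
    show R (cc * u)⁻¹ (V (R u x.snd)) - x.snd = _
    abel
  rw [hfst, hsnd]
  have n1 : ‖R (cc * u)⁻¹ (V (R u x.fst) - R u x.fst)‖ ≤ ε' := by
    rw [R_iso hR]; exact g2 u
  have n2 : ‖R (cc * u)⁻¹ (V (d (R u x.snd)))‖ ≤ ε' * ‖x.snd‖ := by
    rw [R_iso hR, hVi]
    refine (d.le_opNorm _).trans ?_
    rw [R_iso hR]
    exact mul_le_mul_of_nonneg_right g1 (norm_nonneg _)
  have n3 : ‖R (cc * u)⁻¹ (V (R u x.snd) - R u x.snd)‖ ≤ ε' := by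
    rw [R_iso hR]; exact g4 u
  have m1 := norm_add₃_le (a := R (cc * u)⁻¹ (V (R u x.fst) - R u x.fst))
    (b := R (cc * u)⁻¹ (V (d (R u x.snd)))) (c := R cc⁻¹ x.fst - x.fst)
  have m2 := norm_add_le (R (cc * u)⁻¹ (V (R u x.snd) - R u x.snd)) (R cc⁻¹ x.snd - x.snd)
  nlinarith

end Pool.Agent.W140.WH
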